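import Pool.Agent.Results.MP_a0e599_al.Main

set_option autoImplicit false

/-!
# Homology of multiplication by a generic exterior form over arbitrary fields

An explicit bound `N(r, d) = (r + 1) d`, valid over every field `K` (of any characteristic), for
every form whose coefficients are algebraically independent over some subfield; in characteristic
two also for even `d`.  For `1 ≤ r < d` we also give a lower bound for `N(r, d)`.
-/

namespace Pool.Agent.Results.MP_a0e599_al.AllFields

open ExteriorAlgebra
open Pool.Agent.Results.MP_a0e599_al.Main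

universe u v w

section ops

variable {K : Type u} [Field K] {n : ℕ} {V : Type v} [AddCommGroup V] [Module K V]
  {e : Module.Basis (Fin n) K V}

lemma lmono_sq (l : List (Fin n)) (hl : l ≠ []) : lmono e l * lmono e l = 0 := by
  cases l with
  | nil => exact absurd rfl hl
  | cons a l =>
    have h1 : lmono e (a :: l) * lmono e (a :: l) =
        gen e a * (lmono e l * gen e a) * lmono e l := by
      rw [lmono_cons]; simp only [mul_assoc]
    have h2 : (-1 : K) ^ l.length • (lmono e l * gen e a) = gen e a * lmono e l :=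
      (gen_mul_lmono a l).symm
    have h3 : lmono e l * gen e a = (-1 : K) ^ l.length • (gen e a * lmono e l) := by
      rw [← h2, smul_smul, ← mul_pow]; simp
    rw [h1, h3, mul_smul_comm, ← mul_assoc, gen_gen, zero_mul, smul_zero, zero_mul]

lemma form_sq' {d : ℕ} (hd : 0 < d) (hs : (-1 : K) ^ (d * d) = -1) (c : Finset (Fin n) → K) :
    form e d c * form e d c = 0 := by
  have h1 : form e d c * form e d c =
      ∑ p ∈ ((Finset.univ : Finset (Fin n)).powersetCard d) ×ˢ
        ((Finset.univ : Finset (Fin n)).powersetCard d),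
        (c p.1 * c p.2) • (mono e p.1 * mono e p.2) := by
    unfold form
    rw [Finset.sum_mul_sum, Finset.sum_product]
    refine Finset.sum_congr rfl fun s _ => Finset.sum_congr rfl fun t _ => ?_
    rw [smul_mul_smul_comm]
  rw [h1]
  have hanti : ∀ s t : Finset (Fin n), s.card = d → t.card = d →
      mono e s * mono e t = - (mono e t * mono e s) := by
    intro s t hs' ht'
    have h2 := lmono_comm (e := e) (s.sort (· ≤ ·)) (t.sort (· ≤ ·))
    rw [Finset.length_sort, Finset.length_sort, hs', ht', hs] at h2
    unfold mono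
    rw [h2]; simp
  refine Finset.sum_involution (fun p _ => (p.2, p.1)) ?_ ?_ ?_ ?_
  · rintro ⟨s, t⟩ hp
    rw [Finset.mem_product, Finset.mem_powersetCard, Finset.mem_powersetCard] at hp
    show (c s * c t) • (mono e s * mono e t) + (c t * c s) • (mono e t * mono e s) = 0
    rw [hanti s t hp.1.2 hp.2.2, mul_comm (c t) (c s), smul_neg, neg_add_cancel]
  · rintro ⟨s, t⟩ hp hne heq
    rw [Finset.mem_product, Finset.mem_powersetCard, Finset.mem_powersetCard] at hp
    have hst : t = s := congrArg Prod.fst heq
    subst hst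
    apply hne
    show (c t * c t) • (mono e t * mono e t) = 0
    have : mono e t * mono e t = 0 := by
      unfold mono
      apply lmono_sq
      intro h0
      have h3 := congrArg List.length h0
      rw [Finset.length_sort, hp.1.2, List.length_nil] at h3
      omega
    rw [this, smul_zero]
  · rintro ⟨s, t⟩ hp
    rw [Finset.mem_product] at hp ⊢
    exact ⟨hp.2, hp.1⟩
  · rintro ⟨s, t⟩ hp
    rfl

/-- weighted number of blocks contained in `S` or disjoint from `S` -/
def lamw {k : ℕ} (t : Fin k → K) (T : Fin k → Finset (Fin n)) (S : Finset (Fin n)) : K :=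
  ∑ b, t b * ((if ∀ i ∈ T b, i ∈ S then 1 else 0) + (if ∀ i ∈ T b, i ∉ S then 1 else 0))

lemma Phi_special' {k d : ℕ} (t : Fin k → K) (T : Fin k → Finset (Fin n))
    (hs : (-1 : K) ^ (d * d) = -1) (hT : ∀ b, (T b).card = d)
    (hdis : ∀ b b', b ≠ b' → Disjoint (T b) (T b')) (S : Finset (Fin n)) :
    Phi e T (∑ b, t b • mono e (T b)) (mono e S) = lamw t T S • mono e S := by
  unfold Phi
  simp only [Hop_apply, Finset.sum_mul, Finset.mul_sum, map_sum, smul_mul_assoc, map_smul]
  have key : ∀ b b' : Fin k, t b • (mono e (T b) * dels e ((T b').sort (· ≤ ·)) (mono e S)) +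
      t b • dels e ((T b').sort (· ≤ ·)) (mono e (T b) * mono e S) =
      if b = b' then (t b * ((if ∀ i ∈ T b, i ∈ S then (1:K) else 0) +
        (if ∀ i ∈ T b, i ∉ S then (1:K) else 0))) • mono e S else 0 := by
    intro b b'
    rw [← smul_add]
    by_cases hb : b = b'
    · subst hb
      rw [if_pos rfl, mul_smul]
      have h1 := lmono_mul_dels (isEig_mono (e := e) S) ((T b).sort (· ≤ ·))
        (Finset.sort_nodup _ _)
      have h2 := dels_lmono_mul_self (isEig_mono (e := e) S) ((T b).sort (· ≤ ·))
        (Finset.sort_nodup _ _)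
      simp only [Finset.mem_sort] at h1 h2
      unfold mono at h1 h2 ⊢
      rw [h1, h2, add_smul]
      congr 2 <;> split_ifs <;> simp
    · rw [if_neg hb]
      have h3 := dels_lmono_mul (e := e) ((T b').sort (· ≤ ·)) ((T b).sort (· ≤ ·))
        (by
          intro a ha hb'
          rw [Finset.mem_sort] at ha hb'
          exact (Finset.disjoint_left.1 (hdis b b' hb)) hb' ha) (mono e S)
      rw [Finset.length_sort, Finset.length_sort, hT, hT, hs] at h3
      unfold mono at h3 ⊢
      rw [h3]
      simp
  have e1 : (∑ b' : Fin k, ∑ b : Fin k,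
        t b • (mono e (T b) * dels e ((T b').sort (· ≤ ·)) (mono e S))) +
      (∑ b' : Fin k, ∑ b : Fin k,
        t b • dels e ((T b').sort (· ≤ ·)) (mono e (T b) * mono e S)) =
      ∑ b' : Fin k, (t b' * ((if ∀ i ∈ T b', i ∈ S then (1:K) else 0) +
        (if ∀ i ∈ T b', i ∉ S then (1:K) else 0))) • mono e S := by
    rw [← Finset.sum_add_distrib]
    refine Finset.sum_congr rfl fun b' _ => ?_
    rw [← Finset.sum_add_distrib]
    simp_rw [key]
    simp
  refine Eq.trans ?_ (e1.trans ?_)
  · congr 1
    simp_rw [Finset.smul_sum]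
    exact Finset.sum_comm
  · rw [← Finset.sum_smul]
    rfl

lemma lamw_ne_zero {F : Type w} [Field F] [Algebra F K] {k : ℕ} (t : Fin k → K)
    (ht : AlgebraicIndependent F t) (T : Fin k → Finset (Fin n)) (hne : ∀ b, (T b).Nonempty)
    (hdis : ∀ b b', b ≠ b' → Disjoint (T b) (T b')) (S : Finset (Fin n)) (hS : S.card < k) :
    lamw t T S ≠ 0 := by
  intro h0
  have hlin := ht.linearIndependent
  rw [Fintype.linearIndependent_iff] at hlin
  have h1 := hlin (fun b => (if ∀ i ∈ T b, i ∈ S then (1 : F) else 0) +
    (if ∀ i ∈ T b, i ∉ S then 1 else 0)) (by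
      rw [← h0]
      unfold lamw
      refine Finset.sum_congr rfl fun b _ => ?_
      rw [Algebra.smul_def, mul_comm, map_add]
      congr 2 <;> split_ifs <;> simp)
  have h2 : ∀ b, ∃ i ∈ T b, i ∈ S := by
    intro b
    by_contra hb
    push Not at hb
    have h3 := h1 b
    have h4 : ¬ ∀ i ∈ T b, i ∈ S := by
      intro h5
      obtain ⟨i, hi⟩ := hne b
      exact hb i hi (h5 i hi)
    rw [if_neg h4, if_pos hb, zero_add] at h3
    exact one_ne_zero h3
  choose g hg1 hg2 using h2
  have hinj : Function.Injective g := by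
    intro b b' hbb
    by_contra hne
    exact (Finset.disjoint_left.1 (hdis b b' hne)) (hg1 b) (hbb ▸ hg1 b')
  have : k ≤ S.card := by
    have h2 := Finset.card_le_card_of_injOn (s := (Finset.univ : Finset (Fin k))) (t := S) g
      (fun b _ => hg2 b) (hinj.injOn)
    simpa using h2
  omega

lemma exists_poly' (F : Type w) [Field F] [Algebra F K] {k : ℕ} (d r : ℕ)
    (T : Fin k → Finset (Fin n)) :
    ∃ P : MvPolynomial {s : Finset (Fin n) // s.card = d} F,
      ∀ c : Finset (Fin n) → K,
        MvPolynomial.aeval (fun s : {s : Finset (Fin n) // s.card = d} => c s.1) P =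
        Matrix.det (Matrix.of fun S U : {S : Finset (Fin n) // S.card = r} =>
          (BB e).repr (Phi e T (form e d c) (mono e U.1)) S.1) := by
  have hz : ∀ (s : {s : Finset (Fin n) // s.card = d}) (S U : {S : Finset (Fin n) // S.card = r}),
      ∃ z : ℤ, (BB e).repr (Phi e T (mono e s.1) (mono e U.1)) S.1 = z := by
    intro s S U
    refine ZL_coord ?_ _
    unfold Phi
    refine AddSubgroup.add_mem _ ?_ ?_
    · exact lmono_mul_mem_ZL _ (Hop_mem_ZL T (lmono_mem_ZL _))
    · exact Hop_mem_ZL T (lmono_mul_mem_ZL _ (lmono_mem_ZL _))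
  choose z hz using hz
  refine ⟨Matrix.det (Matrix.of fun S U : {S : Finset (Fin n) // S.card = r} =>
      ∑ s : {s : Finset (Fin n) // s.card = d},
        MvPolynomial.C (z s S U : F) * MvPolynomial.X s), ?_⟩
  intro c
  rw [AlgHom.map_det]
  congr 1
  ext S U
  simp only [AlgHom.mapMatrix_apply, Matrix.map_apply, Matrix.of_apply, map_sum, map_mul,
    MvPolynomial.aeval_X, MvPolynomial.algHom_C]
  rw [Phi_form]
  simp only [map_sum, map_smul, Finsupp.finsetSum_apply, Finsupp.smul_apply, hz, smul_eq_mul]
  refine Finset.sum_congr rfl fun s _ => ?_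
  rw [mul_comm]
  congr 1
  simp

lemma det_ne_zero' {F : Type w} [Field F] [Algebra F K] {k d r : ℕ} (hd : 0 < d)
    (hs : (-1 : K) ^ (d * d) = -1) (hr : r < k) (h : k * d ≤ n)
    (c : Finset (Fin n) → K)
    (hc : AlgebraicIndependent F (fun s : {s : Finset (Fin n) // s.card = d} => c s.1)) :
    Matrix.det (Matrix.of fun S U : {S : Finset (Fin n) // S.card = r} =>
      (BB e).repr (Phi e (block n k d h) (form e d c) (mono e U.1)) S.1) ≠ 0 := by
  obtain ⟨P, hP⟩ := exists_poly' (e := e) F d r (block n k d h)
  rw [← hP c]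
  have hblock : Function.Injective (block n k d h) := by
    intro b b' hbb
    by_contra hne
    have h2 := block_disjoint n k d h b b' hne
    rw [hbb, disjoint_self, Finset.bot_eq_empty] at h2
    have h3 := block_card n k d h b'
    rw [h2, Finset.card_empty] at h3
    omega
  have hP0 : P ≠ 0 := by
    intro h0
    have h1 := hP (fun s => if ∃ b, s = block n k d h b then c s else 0)
    rw [h0, map_zero] at h1
    have hform : form e d (fun s => if ∃ b, s = block n k d h b then c s else 0) =
        ∑ b, c (block n k d h b) • mono e (block n k d h b) := by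
      unfold form
      have hsub : Finset.univ.image (block n k d h) ⊆
          (Finset.univ : Finset (Fin n)).powersetCard d := by
        intro s hs
        rw [Finset.mem_image] at hs
        obtain ⟨b, _, rfl⟩ := hs
        exact Finset.mem_powersetCard.2 ⟨Finset.subset_univ _, block_card n k d h b⟩
      rw [← Finset.sum_subset hsub]
      · rw [Finset.sum_image (fun a _ b _ hab => hblock hab)]
        refine Finset.sum_congr rfl fun b _ => ?_
        have hb : ∃ b', block n k d h b = block n k d h b' := ⟨b, rfl⟩
        beta_reduce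
        rw [if_pos hb]
      · intro s _ hs
        beta_reduce
        rw [if_neg, zero_smul]
        rintro ⟨b, rfl⟩
        exact hs (Finset.mem_image_of_mem _ (Finset.mem_univ _))
    rw [hform] at h1
    have hdiag : (Matrix.of fun S U : {S : Finset (Fin n) // S.card = r} =>
        (BB e).repr (Phi e (block n k d h)
          (∑ b, c (block n k d h b) • mono e (block n k d h b)) (mono e U.1)) S.1) =
        Matrix.diagonal (fun S => lamw (fun b => c (block n k d h b)) (block n k d h) S.1) := by
      ext S U
      rw [Matrix.of_apply, Phi_special' _ (block n k d h) hs (block_card n k d h)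
        (block_disjoint n k d h), map_smul, Finsupp.smul_apply, ← BB_apply,
        Module.Basis.repr_self, Finsupp.single_apply, Matrix.diagonal_apply]
      by_cases hSU : S = U
      · subst hSU; simp
      · rw [if_neg hSU, if_neg (fun e => hSU (Subtype.ext e.symm)), smul_zero]
    rw [hdiag, Matrix.det_diagonal] at h1
    have ht : AlgebraicIndependent F (fun b => c (block n k d h b)) :=
      hc.comp (fun b => (⟨block n k d h b, block_card n k d h b⟩ :
        {s : Finset (Fin n) // s.card = d})) (fun a b hab => hblock (congrArg Subtype.val hab))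
    have h2 : ∏ S : {S : Finset (Fin n) // S.card = r},
        lamw (fun b => c (block n k d h b)) (block n k d h) S.1 ≠ 0 := by
      rw [Finset.prod_ne_zero_iff]
      intro S _
      exact lamw_ne_zero _ ht (block n k d h)
        (fun b => Finset.card_pos.1 (by rw [block_card]; exact hd))
        (block_disjoint n k d h) S.1 (by rw [S.2]; exact hr)
    exact h2 h1.symm
  intro h0
  apply hP0
  have hinj : Function.Injective (MvPolynomial.aeval (R := F)
    (fun s : {s : Finset (Fin n) // s.card = d} => c s.1)) := hc
  exact hinj (by rw [h0, map_zero])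

lemma Phi_inj' {F : Type w} [Field F] [Algebra F K] {k d r : ℕ} (hd : 0 < d)
    (hs : (-1 : K) ^ (d * d) = -1) (hr : r < k) (h : k * d ≤ n)
    (c : Finset (Fin n) → K)
    (hc : AlgebraicIndependent F (fun s : {s : Finset (Fin n) // s.card = d} => c s.1))
    {x : ExteriorAlgebra K V} (hx : x ∈ ⋀[K]^r V)
    (h0 : Phi e (block n k d h) (form e d c) x = 0) : x = 0 := by
  have hdet := det_ne_zero' (e := e) hd hs hr h c hc
  have hx1 : x = ∑ U : {S : Finset (Fin n) // S.card = r}, (BB e).repr x U.1 • mono e U.1 := by
    conv_lhs => rw [← (BB e).sum_repr x]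
    rw [← Finset.sum_filter_add_sum_filter_not Finset.univ (fun S : Finset (Fin n) => S.card = r)]
    have h1 : ∑ S ∈ Finset.univ.filter (fun S : Finset (Fin n) => ¬ S.card = r),
        (BB e).repr x S • (BB e) S = 0 := by
      refine Finset.sum_eq_zero fun S hS => ?_
      rw [repr_of_mem hx S (Finset.mem_filter.1 hS).2, zero_smul]
    rw [h1, add_zero]
    rw [Finset.sum_subtype (p := fun S : Finset (Fin n) => S.card = r)
      (F := inferInstance) _ (fun S => by simp)]
    simp only [BB_apply]
  have h2 : Matrix.mulVec (Matrix.of fun S U : {S : Finset (Fin n) // S.card = r} =>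
      (BB e).repr (Phi e (block n k d h) (form e d c) (mono e U.1)) S.1)
      (fun U => (BB e).repr x U.1) = 0 := by
    ext S
    have h3 : (BB e).repr (Phi e (block n k d h) (form e d c) x) S.1 = 0 := by
      rw [h0]; simp
    have h3 : (BB e).repr (Phi e (block n k d h) (form e d c)
        (∑ U : {S : Finset (Fin n) // S.card = r}, (BB e).repr x U.1 • mono e U.1)) S.1 = 0 := by
      rw [← hx1]; exact h3
    rw [Phi_smul_add] at h3
    simp only [map_sum, map_smul, Finsupp.finsetSum_apply, Finsupp.smul_apply, smul_eq_mul] at h3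
    simp only [Matrix.mulVec, dotProduct, Matrix.of_apply, Pi.zero_apply]
    rw [← h3]
    refine Finset.sum_congr rfl fun U _ => ?_
    ring
  have h4 := Matrix.eq_zero_of_mulVec_eq_zero hdet h2
  rw [hx1]
  refine Finset.sum_eq_zero fun U _ => ?_
  have h5 : (BB e).repr x U.1 = 0 := congrFun h4 U
  rw [h5, zero_smul]

end ops

theorem main_aux' (F : Type w) [Field F] (K : Type u) [Field K] [Algebra F K] (V : Type v)
    [AddCommGroup V] [Module K V] (d : ℕ) (hd : 0 < d) (hs : (-1 : K) ^ (d * d) = -1) (r n : ℕ)
    (e : Module.Basis (Fin n) K V) (hn : (r + 1) * d ≤ n) (c : Finset (Fin n) → K)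
    (hc : AlgebraicIndependent F (fun s : {s : Finset (Fin n) // s.card = d} => c s.1))
    (x : ExteriorAlgebra K V) (hx : x ∈ gr K V r) (hfx : form e d c * x = 0) :
    ∃ y ∈ gr K V ((r : ℤ) - (d : ℤ)), form e d c * y = x := by
  have : Module.Finite K (ExteriorAlgebra K V) := Module.Finite.of_basis (BB e)
  let W : Submodule K (ExteriorAlgebra K V) := cycles (form e d c) r
  have hW : ∀ w, w ∈ W ↔ w ∈ ⋀[K]^r V ∧ form e d c * w = 0 := by
    intro w
    change w ∈ cycles (form e d c) r ↔ _
    unfold cycles
    rw [Submodule.mem_inf, gr_nat]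
    rfl
  have hff : form e d c * form e d c = 0 := form_sq' hd hs c
  have hPhi : ∀ w ∈ W, Phi e (block n (r + 1) d hn) (form e d c) w ∈ W := by
    intro w hw
    rw [hW] at hw ⊢
    refine ⟨Phi_mem _ (block_card _ _ _ _) (form_mem d c) hw.1, ?_⟩
    unfold Phi
    rw [hw.2, map_zero, add_zero, ← mul_assoc, hff, zero_mul]
  let Ψ : W →ₗ[K] W :=
    { toFun := fun w => ⟨Phi e (block n (r + 1) d hn) (form e d c) w.1, hPhi w.1 w.2⟩
      map_add' := by
        intro a b
        apply Subtype.ext
        simp only [Phi, Submodule.coe_add, map_add, mul_add]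
        abel
      map_smul' := by
        intro a b
        apply Subtype.ext
        simp only [Phi, Submodule.coe_smul, map_smul, mul_smul_comm, smul_add, RingHom.id_apply] }
  have hinj : Function.Injective Ψ := by
    rw [← LinearMap.ker_eq_bot, LinearMap.ker_eq_bot']
    intro w hw
    apply Subtype.ext
    have h1 : Phi e (block n (r + 1) d hn) (form e d c) w.1 = 0 := congrArg Subtype.val hw
    exact Phi_inj' hd hs (Nat.lt_succ_self r) hn c hc ((hW w.1).1 w.2).1 h1
  have hsurj := LinearMap.injective_iff_surjective.1 hinj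
  have hxW : x ∈ W := by
    rw [hW]; rw [gr_nat] at hx; exact ⟨hx, hfx⟩
  obtain ⟨w, hw⟩ := hsurj ⟨x, hxW⟩
  have h1 : Phi e (block n (r + 1) d hn) (form e d c) w.1 = x := congrArg Subtype.val hw
  refine ⟨Hop e (block n (r + 1) d hn) w.1, ?_, ?_⟩
  · refine Hop_mem _ (block_card _ _ _ _) r ?_
    rw [gr_nat]; exact ((hW w.1).1 w.2).1
  · rw [← h1]
    unfold Phi
    rw [((hW w.1).1 w.2).2, map_zero, add_zero]

theorem main' (F : Type w) [Field F] (K : Type u) [Field K] [Algebra F K] (V : Type v)
    [AddCommGroup V] [Module K V] (d : ℕ) (hd : 0 < d) (hdK : Odd d ∨ CharP K 2) (r n : ℕ)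
    (e : Module.Basis (Fin n) K V) (hn : (r + 1) * d ≤ n) (c : Finset (Fin n) → K)
    (hc : AlgebraicIndependent F (fun s : {s : Finset (Fin n) // s.card = d} => c s.1)) :
    Subsingleton (Homology (form e d c) d r) := by
  have hs : (-1 : K) ^ (d * d) = -1 := by
    rcases hdK with h | h
    · exact (h.mul h).neg_one_pow
    · have h2 : (-1 : K) = 1 := by
        have := CharTwo.neg_eq (1 : K)
        exact this
      rw [h2, one_pow]
  rw [Submodule.Quotient.subsingleton_iff, Submodule.eq_top_iff']
  rintro ⟨x, hx⟩
  unfold boundsIn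
  rw [Submodule.mem_comap]
  unfold cycles at hx
  rw [Submodule.mem_inf] at hx
  obtain ⟨y, hy, hxy⟩ := main_aux' F K V d hd hs r n e hn c hc x hx.1 hx.2
  exact ⟨y, hy, hxy⟩

/-! ### A lower bound -/

lemma choose_lt_succ (n j : ℕ) (h : 2 * j + 1 < n) : n.choose j < n.choose (j + 1) := by
  have h1 := Nat.choose_succ_right_eq n j
  have h2 : 0 < n.choose j := Nat.choose_pos (by omega)
  have h3 : j + 2 ≤ n - j := by omega
  by_contra h4
  push Not at h4
  have h5 : n.choose j * (j + 2) ≤ n.choose j * (n - j) := Nat.mul_le_mul_left _ h3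
  have h6 : n.choose (j + 1) * (j + 1) ≤ n.choose j * (j + 1) := Nat.mul_le_mul_right _ h4
  have h7 : n.choose j * (j + 2) = n.choose j * (j + 1) + n.choose j := by ring
  omega

lemma choose_lt_of_lt_half (n : ℕ) {a b : ℕ} (hab : a < b) (hb : 2 * b ≤ n) :
    n.choose a < n.choose b := by
  induction b, hab using Nat.le_induction with
  | base => exact choose_lt_succ n a (by omega)
  | succ b hb' ih => exact (ih (by omega)).trans (choose_lt_succ n b (by omega))

lemma choose_lt (n r d : ℕ) (hd : 0 < d) (hr : r ≤ n) (hn : n < 2 * r + d) :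
    n.choose (r + d) < n.choose r := by
  rcases Nat.lt_or_ge n (r + d) with h | h
  · rw [Nat.choose_eq_zero_of_lt h]
    exact Nat.choose_pos hr
  · rw [← Nat.choose_symm h]
    rcases Nat.le_total (2 * r) n with h2 | h2
    · exact choose_lt_of_lt_half n (by omega) h2
    · rw [← Nat.choose_symm hr]
      exact choose_lt_of_lt_half n (by omega) (by omega)

/-- If `r < d` and `r ≤ n < 2r + d` then `H_r ≠ 0` for every form of degree `d` in `n` variables,
because multiplication by it cannot be injective in degree `r`. -/
theorem lower (K : Type u) [Field K] (V : Type v) [AddCommGroup V] [Module K V]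
    (d r n : ℕ) (hrd : r < d) (hrn : r ≤ n) (hn : n < 2 * r + d)
    (e : Module.Basis (Fin n) K V) (c : Finset (Fin n) → K) :
    ¬ Subsingleton (Homology (form e d c) d r) := by
  have : Module.Finite K V := Module.Finite.of_basis e
  have : Module.Free K V := Module.Free.of_basis e
  have hV : Module.finrank K V = n := by
    rw [Module.finrank_eq_card_basis e, Fintype.card_fin]
  let L : ⋀[K]^r V →ₗ[K] ⋀[K]^(r + d) V :=
    { toFun := fun w => ⟨form e d c * w.1, by
        have h1 := mul_mem_gr (form_mem (e := e) d c) (x := w.1) (i := (r : ℤ))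
          (by rw [gr_nat]; exact w.2)
        have h2 : ((r : ℤ) + (d : ℤ)) = ((r + d : ℕ) : ℤ) := by push_cast; ring
        rw [h2, gr_nat] at h1
        exact h1⟩
      map_add' := by
        intro a b
        apply Subtype.ext
        simp [mul_add]
      map_smul' := by
        intro a b
        apply Subtype.ext
        simp [mul_smul_comm] }
  have hker : LinearMap.ker L ≠ ⊥ := by
    apply LinearMap.ker_ne_bot_of_finrank_lt
    rw [exteriorPower.finrank_eq, exteriorPower.finrank_eq, hV]
    exact choose_lt n r d (by omega) hrn hn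
  obtain ⟨w, hw, hw0⟩ := Submodule.exists_mem_ne_zero_of_ne_bot hker
  have hw1 : form e d c * w.1 = 0 := congrArg Subtype.val (LinearMap.mem_ker.1 hw)
  intro hsub
  rw [Submodule.Quotient.subsingleton_iff, Submodule.eq_top_iff'] at hsub
  have hcyc : w.1 ∈ cycles (form e d c) r := by
    unfold cycles
    rw [Submodule.mem_inf, gr_nat]
    exact ⟨w.2, hw1⟩
  have h1 := hsub ⟨w.1, hcyc⟩
  unfold boundsIn at h1
  rw [Submodule.mem_comap] at h1
  obtain ⟨y, hy, hy1⟩ := h1
  have hy2 : y ∈ gr K V ((r : ℤ) - (d : ℤ)) := hy
  unfold gr at hy2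
  rw [if_neg (by omega), Submodule.mem_bot] at hy2
  rw [hy2, map_zero] at hy1
  exact hw0 (Subtype.ext hy1.symm)

/-- **Main result.**

(1) For odd `d > 1` and `r ≥ 0` the number `N(r, d) = (r + 1) d` has the property asked for in the
problem.

(2) More generally, let `K` be any field, `d ≥ 1`, and assume that `d` is odd or that `K` has
characteristic two.  If `n ≥ (r + 1) d` and `f` is a form of degree `d` in `n` variables over `K`
whose coefficients are algebraically independent over some subfield `F` of `K`, then
`H_r(f) = 0`.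

(3) If `r < d` and `r ≤ n < 2r + d`, then `H_r(f) ≠ 0` for every form of degree `d` in `n`
variables over any field; so for `r < d` the least possible `N(r, d)` lies between `2r + d` and
`(r + 1) d`. -/
theorem result :
    (∀ d : ℕ, 1 < d → Odd d → ∀ r : ℕ,
      ∀ (K : Type u) [Field K] [CharZero K] (n : ℕ), (r + 1) * d ≤ n →
      ∀ (V : Type v) [AddCommGroup V] [Module K V] (x : Module.Basis (Fin n) K V)
        (c : Finset (Fin n) → K), IsGeneric d c → Subsingleton (Homology (form x d c) d r)) ∧
    (∀ (F : Type w) [Field F] (K : Type u) [Field K] [Algebra F K] (d : ℕ), 0 < d →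
      Odd d ∨ CharP K 2 → ∀ r n : ℕ, (r + 1) * d ≤ n →
      ∀ (V : Type v) [AddCommGroup V] [Module K V] (x : Module.Basis (Fin n) K V)
        (c : Finset (Fin n) → K),
        AlgebraicIndependent F (fun s : {s : Finset (Fin n) // s.card = d} => c s.1) →
        Subsingleton (Homology (form x d c) d r)) ∧
    (∀ (K : Type u) [Field K] (d r n : ℕ), r < d → r ≤ n → n < 2 * r + d →
      ∀ (V : Type v) [AddCommGroup V] [Module K V] (x : Module.Basis (Fin n) K V)
        (c : Finset (Fin n) → K), ¬ Subsingleton (Homology (form x d c) d r)) := by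
  refine ⟨?_, ?_, ?_⟩
  · intro d hd1 hd r K _ _ n hn V _ _ e c hc
    exact main' ℚ K V d (by omega) (Or.inl hd) r n e hn c (generic_family hc)
  · intro F _ K _ _ d hd0 hdK r n hn V _ _ e c hc
    exact main' F K V d hd0 hdK r n e hn c hc
  · intro K _ d r n hrd hrn hn V _ _ e c
    exact lower K V d r n hrd hrn hn e c

end Pool.Agent.Results.MP_a0e599_al.AllFields
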